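import Pool.Agent.U36.SD.Stm

/-!
# Project SD, package DEN: the zero density lemma for Galois extensions
-/

set_option autoImplicit false
set_option linter.unusedSectionVars false

open NumberField IsDedekindDomain Pool.Agent.W401.Cheb Filter Topology

namespace Pool.Agent.U433.SD

open Pool.Agent.U36.SD Pool.Agent.U36.DN Pool.Agent.W401.Frob

section
variable {K L : Type} [Field K] [NumberField K] [Field L] [NumberField L] [Algebra K L]

/-- the homomorphism of the rings of integers -/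
noncomputable def jj (iota : L →ₐ[K] AlgebraicClosure K) : 𝓞 L →+* 𝓞 (AlgebraicClosure K) :=
  RingOfIntegers.mapRingHom (iota : L →+* AlgebraicClosure K)

theorem jj_coe (iota : L →ₐ[K] AlgebraicClosure K) (x : 𝓞 L) :
    ((jj iota x : 𝓞 (AlgebraicClosure K)) : AlgebraicClosure K) = iota (x : L) := rfl

theorem jj_inj (iota : L →ₐ[K] AlgebraicClosure K) : Function.Injective (jj iota) := by
  intro x y h
  have h1 := congrArg (fun z : 𝓞 (AlgebraicClosure K) => (z : AlgebraicClosure K)) h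
  simp only [jj_coe] at h1
  exact RingOfIntegers.ext (iota.toRingHom.injective h1)

theorem jj_alg (iota : L →ₐ[K] AlgebraicClosure K) (a : 𝓞 K) :
    jj iota (algebraMap (𝓞 K) (𝓞 L) a) = algebraMap (𝓞 K) (𝓞 (AlgebraicClosure K)) a := by
  apply RingOfIntegers.ext
  rw [jj_coe]
  exact iota.commutes (a : K)

/-- a Frobenius element at a given maximal ideal -/
theorem frob_at (v : HeightOneSpectrum (𝓞 K)) (Q' : Ideal (𝓞 (AlgebraicClosure K)))
    (hQm' : Q'.IsMaximal)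
    (hQv' : Q'.comap (algebraMap (𝓞 K) (𝓞 (AlgebraicClosure K))) = v.asIdeal) :
    ∃ σ : GK K, ∀ x : 𝓞 (AlgebraicClosure K), σ • x - x ^ Ideal.absNorm v.asIdeal ∈ Q' := by
  classical
  have : SMulCommClass (GK K) (𝓞 K) (𝓞 (AlgebraicClosure K)) := smulComm
  have : Algebra.IsInvariant (𝓞 K) (𝓞 (AlgebraicClosure K)) (GK K) := isInv
  let _ : TopologicalSpace (𝓞 (AlgebraicClosure K)) := ⊥
  have : DiscreteTopology (𝓞 (AlgebraicClosure K)) := ⟨rfl⟩
  have : ContinuousSMul (GK K) (𝓞 (AlgebraicClosure K)) := by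
    rw [continuousSMul_iff_stabilizer_isOpen]
    intro x
    have h1 := stabilizer_isOpen_of_isIntegral (K := K) (x : AlgebraicClosure K)
    convert h1 using 2
    ext g
    rw [MulAction.mem_stabilizer_iff, MulAction.mem_stabilizer_iff]
    constructor
    · intro h
      exact congrArg (fun z : (𝓞 (AlgebraicClosure K)) => (z : AlgebraicClosure K)) h
    · intro h
      exact RingOfIntegers.ext h
  obtain ⟨σ, hσ⟩ := exists_frob v
  obtain ⟨Q, hQm, hQv, hQ⟩ := hσ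
  obtain ⟨ρ, hρ⟩ := Algebra.IsInvariant.exists_smul_of_under_eq_of_profinite (A := 𝓞 K)
    (G := GK K) Q Q' (hQv.trans hQv'.symm)
  have hρ' : Q' = tr ρ Q := by
    rw [hρ]
    ext x
    rw [mem_tr]
    exact Ideal.mem_pointwise_smul_iff_inv_smul_mem
  refine ⟨ρ * σ * ρ⁻¹, fun x => ?_⟩
  rw [hρ']
  exact frob_conj v σ ρ Q hQ x

/-- a Frobenius element at a maximal ideal above a given prime of `L` -/
theorem frob_over (iota : L →ₐ[K] AlgebraicClosure K) (v : HeightOneSpectrum (𝓞 K))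
    (w : HeightOneSpectrum (𝓞 L))
    (hw : w.asIdeal.comap (algebraMap (𝓞 K) (𝓞 L)) = v.asIdeal) :
    ∃ (σ : GK K) (Q : Ideal (𝓞 (AlgebraicClosure K))), Q.IsMaximal ∧
      Q.comap (algebraMap (𝓞 K) (𝓞 (AlgebraicClosure K))) = v.asIdeal ∧
      (∀ x : 𝓞 (AlgebraicClosure K), σ • x - x ^ Ideal.absNorm v.asIdeal ∈ Q) ∧
      Q.comap (jj iota) = w.asIdeal := by
  let _ : Algebra (𝓞 L) (𝓞 (AlgebraicClosure K)) := (jj iota).toAlgebra
  have : IsScalarTower ℤ (𝓞 L) (𝓞 (AlgebraicClosure K)) :=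
    IsScalarTower.of_algebraMap_eq' (RingHom.ext_int _ _)
  have : Algebra.IsIntegral (𝓞 L) (𝓞 (AlgebraicClosure K)) :=
    ⟨fun x => (RingOfIntegers.isIntegral x).tower_top⟩
  have hwm : w.asIdeal.IsMaximal := w.isMaximal
  obtain ⟨Q, hQm, hQw⟩ := Ideal.exists_ideal_over_maximal_of_isIntegral
    (S := 𝓞 (AlgebraicClosure K)) w.asIdeal (by
      have h0 : RingHom.ker (algebraMap (𝓞 L) (𝓞 (AlgebraicClosure K))) = ⊥ :=
        (RingHom.injective_iff_ker_eq_bot _).1 (jj_inj iota)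
      rw [h0]
      exact bot_le)
  have hQw' : Q.comap (jj iota) = w.asIdeal := hQw
  have hQv : Q.comap (algebraMap (𝓞 K) (𝓞 (AlgebraicClosure K))) = v.asIdeal := by
    rw [← hw, ← hQw']
    ext a
    rw [Ideal.mem_comap, Ideal.mem_comap, Ideal.mem_comap, jj_alg]
  obtain ⟨σ, hσ⟩ := frob_at v Q hQm hQv
  exact ⟨σ, Q, hQm, hQv, hσ, hQw'⟩

/-- powers with exponent the degree are trivial on a Galois extension -/
theorem pow_fix (N : IntermediateField K (AlgebraicClosure K)) [FiniteDimensional K N] [Normal K N]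
    (σ : GK K) (x : AlgebraicClosure K) (hx : x ∈ N) : (σ ^ Module.finrank K N) x = x := by
  have : IsGalois K N := ⟨⟩
  have h1 : (σ ^ Module.finrank K N).restrictNormal N = 1 := by
    have h2 : AlgEquiv.restrictNormalHom N (σ ^ Module.finrank K N) = 1 := by
      rw [map_pow, ← IsGalois.card_aut_eq_finrank K N]
      exact pow_card_eq_one'
    exact h2
  have h3 := AlgEquiv.restrictNormal_commutes (σ ^ Module.finrank K N) N ⟨x, hx⟩
  rw [h1] at h3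
  exact h3.symm

end

theorem t_DEN (hOP : S_OP) (hCNT : S_CNT) (hFF : S_FF) : S_DEN := by
  classical
  intro K L _ _ _ _ _ _ S D hD hm B h
  set V : Set (HeightOneSpectrum (𝓞 K)) := {v | ∃ w ∈ S,
    w.asIdeal.comap (algebraMap (𝓞 K) (𝓞 L)) = v.asIdeal} with hV
  show Tendsto (dens fun v => v ∈ V) atTop (𝓝 0)
  -- the embedding
  have : FiniteDimensional K L := Module.Finite.of_restrictScalars_finite ℚ K L
  obtain ⟨iota⟩ : Nonempty (L →ₐ[K] AlgebraicClosure K) := ⟨IsAlgClosed.lift⟩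
  set N : IntermediateField K (AlgebraicClosure K) := iota.fieldRange with hN
  let e : L ≃ₐ[K] N := AlgEquiv.ofInjectiveField iota
  have hNfd : FiniteDimensional K N := LinearEquiv.finiteDimensional e.toLinearEquiv
  have hNn : Normal K N := Normal.of_algEquiv e
  have hdeg : Module.finrank K N = Module.finrank K L := (LinearEquiv.finrank_eq e.toLinearEquiv).symm
  have hchoice : ∀ ℓ : ℕ, ∃ c : 𝓞 L, ∃ T : Set (HeightOneSpectrum (𝓞 L)), ℓ ∈ D → B < ℓ →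
      (∀ x : L, x ^ ℓ ≠ c) ∧ T.Finite ∧ ∀ v ∈ S, v ∉ T → ∃ s : 𝓞 L, c - s ^ ℓ ∈ v.asIdeal := by
    intro ℓ
    by_cases h1 : ℓ ∈ D ∧ B < ℓ
    · obtain ⟨c, h2, T, h3, h4⟩ := h ℓ h1.1 h1.2
      exact ⟨c, T, fun _ _ => ⟨h2, h3, h4⟩⟩
    · exact ⟨0, ∅, fun h2 h3 => absurd ⟨h2, h3⟩ h1⟩
  choose c T hcT using hchoice
  rw [Metric.tendsto_atTop]
  intro ε hε
  set d : ℝ := (Module.finrank K N : ℝ) ^ 2 * (Module.finrank ℚ K : ℝ) with hd
  have hh0 : 0 < Module.finrank K N := Module.finrank_pos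
  have hd0 : 0 < d := by
    have h1 : (0 : ℝ) < Module.finrank K N := by exact_mod_cast hh0
    have h2 : (0 : ℝ) < Module.finrank ℚ K := by exact_mod_cast Module.finrank_pos
    positivity
  obtain ⟨A, hA, hprod⟩ := exists_primes hD
    (max B (Module.finrank ℚ K * Module.finrank K N + 1)) (ε / 2 / d) (by positivity)
  have hA0 : ∀ ℓ ∈ A, ℓ ∈ D := fun ℓ hℓ => (hA ℓ hℓ).1
  have hA1 : ∀ ℓ ∈ A, ℓ.Prime := fun ℓ hℓ => hD.1 ℓ (hA ℓ hℓ).1
  have hA2 : ∀ ℓ ∈ A, Module.finrank ℚ K * Module.finrank K N + 1 < ℓ := fun ℓ hℓ =>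
    lt_of_le_of_lt (le_max_right _ _) (hA ℓ hℓ).2
  have hA3 : ∀ ℓ ∈ A, B < ℓ := fun ℓ hℓ => lt_of_le_of_lt (le_max_left _ _) (hA ℓ hℓ).2
  have hA4 : ∀ ℓ ∈ A, Module.finrank K N ∣ ℓ - 1 := fun ℓ hℓ => by
    rw [hdeg]
    exact hm ℓ (hA0 ℓ hℓ)
  set c' : ℕ → AlgebraicClosure K := fun ℓ => iota ((c ℓ : 𝓞 L) : L) with hc'
  have hcl : ∀ ℓ ∈ A, ∀ x : L, x ^ ℓ ≠ c ℓ := fun ℓ hℓ => (hcT ℓ (hA0 ℓ hℓ) (hA3 ℓ hℓ)).1
  have hc : ∀ ℓ ∈ A, c' ℓ ∈ N ∧ ∀ x ∈ N, x ^ ℓ ≠ c' ℓ := by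
    intro ℓ hℓ
    refine ⟨⟨_, rfl⟩, ?_⟩
    rintro _ ⟨y, rfl⟩ h1
    apply hcl ℓ hℓ y
    apply iota.toRingHom.injective
    have h2 : iota (y ^ ℓ) = iota (c ℓ : L) := by
      rw [map_pow]
      exact h1
    exact h2
  have hcne : ∀ ℓ ∈ A, c ℓ ≠ 0 := by
    intro ℓ hℓ h0
    apply hcl ℓ hℓ 0
    rw [zero_pow (hA1 ℓ hℓ).ne_zero, h0]
    rfl
  obtain ⟨hUn, hUo, hUC⟩ := hOP K N A (fun ℓ hℓ => (hA1 ℓ hℓ).pos) c'
  obtain ⟨hC1, hC2, -⟩ := hUC (Module.finrank K N)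
  have key := Pool.Agent.W528.Ord.chebK K (US N A c') hUo (CS A c' (Module.finrank K N)) hC1 hC2
  have hratio := hCNT K N A hA1 hA2 hA4 c' hc
  have hlt : (((QuotientGroup.mk : GK K → GK K ⧸ US N A c') '' CS A c' (Module.finrank K N)).ncard : ℝ) /
      (Nat.card (GK K ⧸ US N A c') : ℝ) < ε / 2 := by
    refine lt_of_le_of_lt hratio ?_
    calc d * ∏ ℓ ∈ A, (((ℓ : ℝ) - 1) / ℓ) < d * (ε / 2 / d) := mul_lt_mul_of_pos_left hprod hd0
      _ = ε / 2 := by field_simp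
  -- the exceptional places
  have hfinx : ∀ x : 𝓞 L, x ≠ 0 → {w : HeightOneSpectrum (𝓞 L) | x ∈ w.asIdeal}.Finite := by
    intro x hx
    have h1 := Ideal.finite_factors (R := 𝓞 L) (I := Ideal.span {x})
      (by rwa [Ne, Ideal.zero_eq_bot, Ideal.span_singleton_eq_bot])
    refine h1.subset fun w hw => ?_
    exact Ideal.dvd_iff_le.2 ((Ideal.span_singleton_le_iff_mem _).2 hw)
  set E' : Set (HeightOneSpectrum (𝓞 L)) := ⋃ ℓ ∈ A, (T ℓ ∪ {w | ((ℓ : ℕ) : 𝓞 L) ∈ w.asIdeal} ∪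
    {w | c ℓ ∈ w.asIdeal}) with hE'
  have hEfin' : E'.Finite := by
    refine Set.Finite.biUnion A.finite_toSet fun ℓ hℓ => ?_
    exact (((hcT ℓ (hA0 ℓ hℓ) (hA3 ℓ hℓ)).2.1).union
      (hfinx _ (Nat.cast_ne_zero.2 (hA1 ℓ hℓ).ne_zero))).union (hfinx _ (hcne ℓ hℓ))
  set E : Set (HeightOneSpectrum (𝓞 K)) := ⋃ w ∈ E', {v | w.asIdeal.comap
    (algebraMap (𝓞 K) (𝓞 L)) = v.asIdeal} with hE
  have hEfin : E.Finite := by
    refine Set.Finite.biUnion hEfin' fun w _ => ?_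
    refine Set.Subsingleton.finite fun v hv v' hv' => ?_
    exact HeightOneSpectrum.ext (Eq.trans (Eq.symm hv) hv')
  have hsub : ∀ v ∈ V, v ∉ E → ∃ σ ∈ CS A c' (Module.finrank K N), IsFrob v σ := by
    rintro v ⟨w, hwS, hwv⟩ hvE
    obtain ⟨σ, Q, hQm, hQv, hQ, hQw⟩ := frob_over iota v w hwv
    refine ⟨σ, ⟨1, ?_⟩, Q, hQm, hQv, hQ⟩
    intro ℓ hℓ hfix z hz
    have hwE : w ∉ E' := fun h' => hvE (Set.mem_iUnion₂.2 ⟨w, h', hwv⟩)
    have hwE' : w ∉ T ℓ ∪ {w | ((ℓ : ℕ) : 𝓞 L) ∈ w.asIdeal} ∪ {w | c ℓ ∈ w.asIdeal} := fun h' =>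
      hwE (Set.mem_iUnion₂.2 ⟨ℓ, hℓ, h'⟩)
    simp only [Set.mem_union, Set.mem_ofPred_eq, not_or] at hwE'
    obtain ⟨s, hs⟩ := (hcT ℓ (hA0 ℓ hℓ) (hA3 ℓ hℓ)).2.2 w hwS hwE'.1.1
    have hcomap : ∀ x : 𝓞 L, jj iota x ∈ Q ↔ x ∈ w.asIdeal := by
      intro x
      rw [← hQw]
      rfl
    have hpow : ∀ x : 𝓞 L, (σ ^ Module.finrank K N) • jj iota x = jj iota x := by
      intro x
      apply RingOfIntegers.ext
      show (σ ^ Module.finrank K N) (iota (x : L)) = iota (x : L)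
      exact pow_fix N σ _ ⟨_, rfl⟩
    refine hFF K v σ Q hQm hQv hQ (Module.finrank K N) ℓ hh0 (hA1 ℓ hℓ).pos (jj iota (c ℓ))
      (jj iota s) (fun h' => hwE'.2 ((hcomap _).1 h')) (fun h' => hwE'.1.2 ((hcomap _).1 ?_))
      ?_ (hpow _) (hpow _) hfix z ?_
    · rw [map_natCast]
      exact h'
    · rw [← map_pow, ← map_sub]
      exact (hcomap _).2 hs
    · rw [hz]
      rfl
  have hbound : ∀ n : ℕ, dens (fun v => v ∈ V) n ≤
      dens (fun v : HeightOneSpectrum (𝓞 K) => ∃ σ ∈ CS A c' (Module.finrank K N), IsFrob v σ) n +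
        (E.ncard : ℝ) / (Nat.primeCounting n : ℝ) := by
    intro n
    unfold dens
    rw [← add_div]
    apply div_le_div_of_nonneg_right _ (Nat.cast_nonneg _)
    have hfinn := finite_norm_le (K := K) n
    have h1 : Nat.card {v : HeightOneSpectrum (𝓞 K) // Ideal.absNorm v.asIdeal ≤ n ∧ v ∈ V} =
        {v : HeightOneSpectrum (𝓞 K) | Ideal.absNorm v.asIdeal ≤ n ∧ v ∈ V}.ncard := rfl
    have h2 : Nat.card {v : HeightOneSpectrum (𝓞 K) // Ideal.absNorm v.asIdeal ≤ n ∧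
        ∃ σ ∈ CS A c' (Module.finrank K N), IsFrob v σ} =
        {v : HeightOneSpectrum (𝓞 K) | Ideal.absNorm v.asIdeal ≤ n ∧
          ∃ σ ∈ CS A c' (Module.finrank K N), IsFrob v σ}.ncard := rfl
    rw [h1, h2]
    have h3 : {v : HeightOneSpectrum (𝓞 K) | Ideal.absNorm v.asIdeal ≤ n ∧ v ∈ V} ⊆
        {v : HeightOneSpectrum (𝓞 K) | Ideal.absNorm v.asIdeal ≤ n ∧
          ∃ σ ∈ CS A c' (Module.finrank K N), IsFrob v σ} ∪ E := by
      rintro v ⟨hv1, hv2⟩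
      by_cases hvE : v ∈ E
      · exact Or.inr hvE
      · exact Or.inl ⟨hv1, hsub v hv2 hvE⟩
    have h4 := Set.ncard_le_ncard h3 ((hfinn.subset fun v hv => hv.1).union hEfin)
    have h5 := h4.trans (Set.ncard_union_le _ _)
    exact_mod_cast h5
  have hlim : Tendsto (fun n : ℕ =>
      dens (fun v : HeightOneSpectrum (𝓞 K) => ∃ σ ∈ CS A c' (Module.finrank K N), IsFrob v σ) n +
        (E.ncard : ℝ) / (Nat.primeCounting n : ℝ)) atTop
      (𝓝 ((((QuotientGroup.mk : GK K → GK K ⧸ US N A c') '' CS A c' (Module.finrank K N)).ncard : ℝ) /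
      (Nat.card (GK K ⧸ US N A c') : ℝ) + 0)) := by
    refine key.add ?_
    apply Tendsto.const_div_atTop
    exact tendsto_natCast_atTop_atTop.comp Nat.tendsto_primeCounting
  have hev := hlim.eventually_lt_const (u := ε / 2 + ε / 4) (by linarith)
  obtain ⟨n₀, hn₀⟩ := Filter.eventually_atTop.1 hev
  refine ⟨n₀, fun n hn => ?_⟩
  have h1 := hn₀ n hn
  have h2 := hbound n
  have h3 : 0 ≤ dens (fun v => v ∈ V) n := dens_nonneg _ n
  rw [Real.dist_eq, sub_zero, abs_of_nonneg h3]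
  linarith

end Pool.Agent.U433.SD
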